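import Mathlib
import Pool.Agent.H42.Hfc1

open Pool.Agent.H42.HfcDefs

universe u

/-- Every HFC subspace of a Cantor cube is strongly D (no Menger hypothesis is needed). -/
theorem Pool.Agent.Results.MP_1e45a6_gt.Yes.result {L : Type u} [LinearOrder L]
    (X : Set (L → Bool)) (hX : HFC X) : StronglyD X :=
  Pool.Agent.H42.Hfc1.strong hX
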